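import Mathlib
import Pool.Agent.TH779.DT.Main

/-!
# It is consistent that there is no join-semilattice of breadth two and size `ℵ_(ω+1)` with
principal ideals of size less than `ℵ_ω`

The forcing relation is the one of `Pool.Agent.Helper669.Forcing`: a sentence is the set of the
conditions which force it. The statements about the extension are those of
`Pool.Agent.TH779.DT.Defs`, and supercompact cardinals are defined in `Pool.Agent.W910.LC.Defs`.
The forcing of the proof is the Levy collapse `Col(ω₁, <κ)`. No assumption on cardinal arithmetic,
no instance of Chang's conjecture and no failure of a square-like principle is assumed.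
-/

set_option autoImplicit false

namespace Pool.Agent.Results.MP_537c7a_lc.SupercompactCollapse

open Cardinal Pool.Agent.TH779.DT Pool.Agent.W910.LC

/-- From a supercompact cardinal there is a forcing `P` such that, in the extension by `P`, each
join-semilattice of breadth at most `2` and of cardinality `ℵ_(ω+1)` has a principal ideal of
cardinality at least `ℵ_ω`. -/
theorem result (κ : Cardinal.{0}) (hκ : Supercompact κ) :
    ∃ (P : Type) (_ : Preorder P), Nonempty P ∧ ∀ p : P, p ∈ NoSemilattice P :=
  ⟨Col κ, inferInstance, ⟨T_L3.emp κ⟩, fun p => main hκ p⟩

end Pool.Agent.Results.MP_537c7a_lc.SupercompactCollapse
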